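import Mathlib
import Pool.Agent.H.MP_a16b96_lc.A

set_option autoImplicit false

namespace Pool.Agent.H.MP_43e680_lc

open Set Filter Function Cardinal Real

/-- non(M): least size of a nonmeager set of reals -/
noncomputable def nonM : Cardinal.{0} := sInf {c | ∃ A : Set ℝ, ¬ IsMeagre A ∧ #A = c}

theorem inf : ℵ₀ ≤ nonM := by
  refine le_csInf ⟨_, univ, fun h => ?_, rfl⟩ ?_
  · simpa using (dense_of_mem_residual h).nonempty
  rintro _ ⟨A, h, rfl⟩
  exact not_lt.1 fun c => h (MP_a16b96_lc.cm (lt_aleph0_iff_set_finite.1 c).countable)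

theorem mg {A : Set ℝ} (h : IsMeagre A) : ∃ (y : ℕ → Fin 2) (g : ℕ → ℕ), ∀ x : ℕ → Fin 2,
    (∃ᶠ m in atTop, ∀ i, m ≤ i → i < g m → x i = y i) → ofDigits x ∉ A := by
  obtain ⟨t, t1, t2, t3⟩ := mem_residual.1 h
  have : ∀ᶠ r : ℝ in residual ℝ, ∀ q : ℚ, r + q ∈ t := eventually_countable_forall.2 fun q =>
    tendsto_residual_of_isOpenMap (continuous_add_const (q : ℝ)) (isOpenMap_add_right _)
      (mem_residual.2 ⟨t, Subset.rfl, t2, t3⟩)
  obtain ⟨r, r1, r2⟩ := (dense_of_mem_residual this).inter_open_nonempty _ isOpen_Ioo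
    (nonempty_Ioo.2 zero_lt_one)
  obtain ⟨f, f1, rfl⟩ := t2.eq_iInter_nat
  have : ∀ m, ∃ g, Set.univ ⊆ {x : ℕ → Fin 2 | (∀ n ∈ Iic m, ofDigits x ∈ f n) ∨
      ∃ i, m ≤ i ∧ i < g ∧ x i ≠ digits r 2 i} := fun m => isCompact_univ.elim_directed_cover _
    (fun g => by
      simp only [ofPred_or, ofPred_exists, ofPred_and, ofPred_forall]
      exact ((finite_Iic m).isOpen_biInter fun n _ => (f1 n).preimage continuous_ofDigits).union
        (isOpen_iUnion fun i => isOpen_const.inter (isOpen_const.inter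
          (isOpen_ne_fun (by fun_prop) (by fun_prop)))))
    (fun x _ => by
      by_contra c
      simp only [mem_iUnion, mem_ofPred_eq, not_exists, not_or, not_and, not_not] at c
      refine (c 0).1 fun n _ => mem_iInter.1 ?_ n
      convert r2 (∑ i ∈ Finset.range m, ((x i : ℚ) - digits r 2 i) * (2 ^ (i + 1))⁻¹)
      have := ofDigits_eq_sum_add_ofDigits (digits r 2) m
      rw [ofDigits_digits one_lt_two (Ioo_subset_Ico_self r1)] at this
      rw [ofDigits_eq_sum_add_ofDigits x m,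
        funext fun i => (c (i + m + 1)).2 (i + m) (by omega) (by omega)]
      simp [ofDigitsTerm, sub_mul] at this ⊢
      linarith)
    (Monotone.directed_le fun a b c x h => h.imp_right fun ⟨i, h1, h2, h3⟩ =>
      ⟨i, h1, h2.trans_le c, h3⟩)
  choose g hg using this
  refine ⟨digits r 2, g, fun x h => t1 (mem_iInter.2 fun n => ?_)⟩
  obtain ⟨m, m1, m2⟩ := (h.and_eventually (eventually_ge_atTop n)).exists
  exact (hg m (mem_univ x)).elim (· n m2) fun ⟨i, a, b, c⟩ => (c (m1 i a b)).elim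

theorem avoid {ι : Type} (hι : #ι < nonM) (h : ℕ → ℕ) (S : ι → ℕ → Finset ℕ)
    (hS : ∀ i n, (S i n).card ≤ h n) : ∃ G : ℕ → ℕ, ∀ i, ∀ᶠ n in atTop, G n ∉ S i n := by
  by_contra! c
  obtain ⟨D, hD⟩ := exists_surjective_nat (Finset ℕ × List (Fin 2))
  let p : ι → ℕ → ℕ := fun i k => ∑ j ∈ Finset.range (k + 1), ((S i j).sup id + 1)
  have hp : ∀ i, StrictMono (p i) := fun i => strictMono_nat_of_lt_succ fun k => by
    simp only [p, Finset.sum_range_succ _ (k + 1)]; omega
  have e : ∀ i m, ∃ k, m < p i (k + 1) := fun i m => ⟨m, (hp i).le_apply (x := m + 1)⟩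
  let J := fun i => {x : Σ _ : ℕ, ℕ // x.2 ∈ S i x.1 ∧
    ∑ m ∈ Finset.range (x.1 + 1), h m ≤ (D x.2).1.card}
  have : ∀ i, ∃ f : J i → ℕ, Injective f ∧ ∀ x, f x ∈ (D x.1.2).1 := fun i =>
    (Finset.all_card_le_biUnion_card_iff_exists_injective _).1 fun s => by
      rcases s.eq_empty_or_nonempty with rfl | n
      · simp
      obtain ⟨x, x1, x2⟩ := s.exists_max_image (·.1.1) n
      refine le_trans ?_ (x.2.2.trans (Finset.card_le_card
        (Finset.subset_biUnion_of_mem (fun x : J i => (D x.1.2).1) x1)))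
      refine (Finset.card_le_card_of_injOn (t := (Finset.range (x.1.1 + 1)).sigma (S i))
        Subtype.val (fun y hy => ?_) Subtype.val_injective.injOn).trans ?_
      · simpa [Nat.lt_succ_iff] using ⟨x2 y hy, y.2.1⟩
      · exact (Finset.card_sigma _ _).trans_le (Finset.sum_le_sum fun m _ => hS i m)
  choose f f1 f2 using this
  let x : ι × ι → ℕ → Fin 2 := fun q m =>
    (extend (f q.1) (fun x => (D x.1.2).2) (fun _ => []) (Nat.find (e q.2 m))).getD m 0
  obtain ⟨y, g, hg⟩ := mg (A := range fun q => ofDigits (x q)) (by_contra fun d =>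
    (mk_range_le.trans_lt (mul_lt_of_lt inf hι hι)).not_ge (csInf_le' ⟨_, d, rfl⟩))
  let g' : ℕ → ℕ := fun m => ∑ j ∈ Finset.range (m + 1), g j + m
  have g1 : ∀ m, g m ≤ g' m := fun m => by simp only [g', Finset.sum_range_succ]; omega
  have g2 : Monotone g' := monotone_nat_of_le_succ fun m => by
    simp only [g', Finset.sum_range_succ _ (m + 1)]; omega
  obtain ⟨j, hj⟩ := c fun k => g'^[k] k
  have : ∃ᶠ k in atTop, g (p j k) ≤ p j (k + 1) := by
    by_contra! d
    obtain ⟨N, hN⟩ := eventually_atTop.1 d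
    have : ∀ k, p j (N + k) ≤ g'^[k] (p j N) := fun k => by
      induction k with
      | zero => rfl
      | succ k ih => exact iterate_succ_apply' g' k _ ▸ ((hN _ le_self_add).le.trans
          (g1 _)).trans (g2 ih)
    obtain ⟨k, k1, k2⟩ := (hj.and_eventually (eventually_ge_atTop (p j N))).exists
    have := ((hp j).monotone le_add_self).trans ((this k).trans (g2.iterate k k2))
    have := Finset.le_sup (f := id) k1
    simp only [p, Finset.sum_range_succ, id] at *; omega
  choose K k1 k2 using fun n => ((Nat.frequently_atTop_iff_infinite.1 this).sdiff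
    (finite_lt_nat n)).exists_subset_card_eq (∑ m ∈ Finset.range (n + 1), h m)
  choose G hG using fun n => hD (K n, List.ofFn fun i : Fin (p j ((K n).sup id + 1)) => y i)
  obtain ⟨i, hi⟩ := c G
  refine hg (x (i, j)) (frequently_atTop.2 fun N => ?_) ⟨_, rfl⟩
  obtain ⟨n, n1, n2⟩ := (hi.and_eventually (eventually_ge_atTop N)).exists
  let z : J i := ⟨⟨n, G n⟩, n1, by simp [hG, k2]⟩
  have z1 : f i z ∈ K n := by simpa [z, hG] using f2 i z
  refine ⟨_, (n2.trans (not_lt.1 (k1 n z1).2)).trans (hp j).le_apply, fun m m1 m2 => ?_⟩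
  have m3 := m2.trans_le (k1 n z1).1
  have : Nat.find (e j m) = f i z := (Nat.find_eq_iff _).2 ⟨m3, fun k c =>
    not_lt.2 (((hp j).monotone c).trans m1)⟩
  have m4 := m3.trans_le ((hp j).monotone (Nat.succ_le_succ (Finset.le_sup (f := id) z1)))
  simp only [x, this, (f1 i).extend_apply]
  simp [z, hG, m4]

variable {F E : Type} [Field F] [AddCommGroup E] [Module F E]

/-- almost disjoint family of infinite-dimensional subspaces -/
def AD (𝒜 : Set (Submodule F E)) : Prop :=
  (∀ X ∈ 𝒜, ¬ FiniteDimensional F X) ∧ 𝒜.Pairwise fun X Y => FiniteDimensional F (X ⊓ Y :)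

theorem rk (Y W A : Submodule F E) :
    Module.rank F ((Y ⊔ W) ⊓ A :) ≤ Module.rank F W + Module.rank F (Y ⊓ A :) := by
  rw [← (Y.mkQ ∘ₗ ((Y ⊔ W) ⊓ A).subtype).rank_range_add_rank_ker]
  refine add_le_add ((Submodule.rank_mono ?_).trans (rank_map_le Y.mkQ W))
    (LinearMap.rank_le_of_injective (LinearMap.codRestrict _ (Submodule.subtype _ ∘ₗ
      Submodule.subtype _) fun x => ⟨(Submodule.Quotient.mk_eq_zero Y).1 x.2, x.1.2.2⟩) fun a b h =>
        Subtype.ext (Subtype.ext (by simpa using congrArg Subtype.val h)))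
  rintro _ ⟨⟨x, hx, _⟩, rfl⟩
  obtain ⟨y, hy, w, hw, rfl⟩ := Submodule.mem_sup.1 hx
  exact ⟨w, hw, by simp [(Submodule.Quotient.mk_eq_zero Y).2 hy]⟩

theorem main {𝒜 : Set (Submodule F E)} (h : Maximal AD 𝒜) (h2 : 𝒜.Nontrivial) : nonM ≤ #𝒜 := by
  classical
  by_contra! c
  obtain ⟨A, hA, B, hB, AB⟩ := h2
  have : ∀ W : Submodule F E, ∃ a ∈ A, FiniteDimensional F W → a ∉ B ⊔ W := fun W => by
    by_contra! d
    have := rk B W A
    rw [inf_eq_right.2 fun a h => (d a h).2] at this
    exact h.1.1 A hA (Module.rank_lt_aleph0_iff.1 (this.trans_lt (add_lt_aleph0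
      (Module.rank_lt_aleph0_iff.2 (d 0 A.zero_mem).1)
        (Module.rank_lt_aleph0_iff.2 (h.1.2 hB hA AB.symm)))))
  choose a a1 a2 using this
  obtain ⟨s, s1, s2⟩ := exists_set_linearIndependent F B
  have : Infinite s := infinite_iff.2 (s1 ▸ not_lt.1 (Module.rank_lt_aleph0_iff.not.2 (h.1.1 B hB)))
  let z : ℕ → B := fun k => Infinite.natEmbedding s k
  have hz : LinearIndependent F fun k => (z k : E) :=
    (s2.comp _ (Infinite.natEmbedding s).injective).map' B.subtype B.ker_subtype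
  let W : List ℕ → Submodule F E := fun l => l.foldr (fun k W => W ⊔ F ∙ (a W + z k)) ⊥
  have w1 : ∀ l : List ℕ, Module.rank F ↥(W l) ≤ l.length := fun l => by
    induction l with
    | nil => simp [W]
    | cons k l ih => exact (Submodule.rank_add_le_rank_add_rank (W l) _).trans ((add_le_add ih
        ((rank_span_le _).trans (mk_singleton _).le)).trans (by simp))
  have w2 : ∀ l, FiniteDimensional F (W l) := fun l =>
    Module.rank_lt_aleph0_iff.1 ((w1 l).trans_lt natCast_lt_aleph0)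
  have : ∀ Y : 𝒜, ∃ d : ℕ, ∀ l, ∃ s : Finset ℕ, s.card ≤ l.length + 1 + d ∧
      ∀ k, a (W l) + z k ∈ Y.1 ⊔ W l → k ∈ s := fun Y => by
    by_cases e : Y.1 = B
    · exact ⟨0, fun l => ⟨∅, by simp, fun k c => (a2 _ (w2 l) ((add_mem_cancel_right
        (Submodule.mem_sup_left (z k).2)).1 (e ▸ c))).elim⟩⟩
    have := h.1.2 Y.2 hB e
    refine ⟨Module.finrank F (Y.1 ⊓ B :), fun l => ?_⟩
    have := (LinearIndependent.of_comp (Submodule.subtype _) (v := fun k :
      {k | a (W l) + z k ∈ Y.1 ⊔ W l} => (⟨z k, by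
        simpa using sub_mem ((sup_le_sup_left le_sup_left _ : _ ≤ Y.1 ⊔ (W l ⊔ F ∙ a (W l))) k.2)
          (Submodule.mem_sup_right (Submodule.mem_sup_right (Submodule.mem_span_singleton_self _))),
        (z k).2⟩ : ((Y.1 ⊔ (W l ⊔ F ∙ a (W l))) ⊓ B :)))
      (hz.comp _ Subtype.val_injective)).cardinal_le_rank.trans ((rk _ _ _).trans (add_le_add
        ((Submodule.rank_add_le_rank_add_rank _ _).trans (add_le_add (w1 l) ((rank_span_le _).trans
          (mk_singleton _).le))) (Module.finrank_eq_rank _ _).ge))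
    norm_cast at this
    have f := lt_aleph0_iff_set_finite.1 (this.trans_lt natCast_lt_aleph0)
    refine ⟨f.toFinset, ?_, fun k => f.mem_toFinset.2⟩
    rw [← f.coe_toFinset, Finset.coe_sort_coe, mk_coe_finset] at this
    exact_mod_cast this
  choose d S s1 s2 using this
  let L := Denumerable.ofNat (List ℕ)
  obtain ⟨G, hG⟩ := avoid c (fun n => (L n).length + 1 + n)
    (fun Y n => if d Y ≤ n then S Y (L n) else ∅) fun Y n => by
      have := s1 Y (L n); split_ifs <;> simp; omega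
  let b : ℕ → List ℕ := Nat.rec [] fun _ l => G (Encodable.encode l) :: l
  have b1 : ∀ n, (b n).length = n := fun n => by
    induction n with
    | zero => rfl
    | succ n ih => exact congrArg (· + 1) ih
  have b2 : Monotone fun n => W (b n) := monotone_nat_of_le_succ fun n => le_sup_left
  have b3 : ∀ Y : 𝒜, ∀ᶠ n in atTop, a (W (b n)) + z (G (Encodable.encode (b n))) ∉ Y.1 ⊔ W (b n) :=
    fun Y => ((Encodable.encode_injective.comp (LeftInverse.injective b1)).nat_tendsto_atTop.eventually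
      ((hG Y).and (eventually_ge_atTop (d Y)))).mono fun n h c => h.1 (by
        rw [if_pos h.2]; simpa [L] using s2 Y _ _ c)
  have x1 : ∀ Y ∈ 𝒜, FiniteDimensional F ((⨆ n, W (b n)) ⊓ Y :) := fun Y hY => by
    obtain ⟨N, hN⟩ := eventually_atTop.1 (b3 ⟨Y, hY⟩)
    have k : ∀ n, N ≤ n → W (b n) ⊓ Y ≤ W (b N) := fun n h => by
      induction n, h using Nat.le_induction with
      | base => exact inf_le_left
      | succ n h ih =>
        rintro _ ⟨c, y⟩
        obtain ⟨w, hw, _, c', rfl⟩ := Submodule.mem_sup.1 c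
        obtain ⟨t, rfl⟩ := Submodule.mem_span_singleton.1 c'
        by_cases e : t = 0
        · exact ih ⟨by simpa [e] using hw, y⟩
        · exact (hN n h ((Submodule.smul_mem_iff _ e).1 (by
            simpa using sub_mem (Submodule.mem_sup_left y) (Submodule.mem_sup_right hw)))).elim
    have := w2 (b N)
    refine Submodule.finiteDimensional_of_le (S₂ := W (b N)) fun v ⟨c, y⟩ => ?_
    obtain ⟨n, c⟩ := (Submodule.mem_iSup_of_directed _ b2.directed_le).1 c
    exact k _ (le_max_left N n) ⟨b2 (le_max_right N n) c, y⟩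
  have x2 : ¬ FiniteDimensional F (⨆ n, W (b n) :) := fun c => by
    obtain ⟨N, hN⟩ := eventually_atTop.1 (b3 ⟨B, hB⟩)
    have : StrictMono fun n => Module.finrank F (W (b (N + n))) := strictMono_nat_of_lt_succ fun n =>
      have := w2 (b (N + n + 1))
      Submodule.finrank_lt_finrank_of_lt ((b2 (Nat.le_succ _)).lt_of_not_ge fun c => hN _ le_self_add
        (Submodule.mem_sup_right (c (Submodule.mem_sup_right (Submodule.mem_span_singleton_self _)))))
    exact (this.le_apply.trans (Submodule.finrank_mono (le_iSup (fun n => W (b n)) _))).not_gt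
      (Nat.lt_succ_self _)
  refine x2 (inf_idem (⨆ n, W (b n)) ▸ x1 _ (h.2 (y := insert _ 𝒜) ⟨?_, ?_⟩ (subset_insert _ _)
    (mem_insert _ _)))
  · exact forall_mem_insert.2 ⟨x2, h.1.1⟩
  · exact h.1.2.insert fun Y hY _ => ⟨x1 Y hY, inf_comm (⨆ n, W (b n)) Y ▸ x1 Y hY⟩

/-- least size of an infinite mad family of subspaces of the space with basis indexed by `ℕ` -/
noncomputable def avec (F : Type) [Field F] : Cardinal.{0} :=
  sInf {c | ∃ 𝒜 : Set (Submodule F (ℕ →₀ F)), Maximal AD 𝒜 ∧ 𝒜.Infinite ∧ #𝒜 = c}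

theorem ex (F : Type) [Field F] :
    ∃ 𝒜 : Set (Submodule F (ℕ →₀ F)), Maximal AD 𝒜 ∧ 𝒜.Infinite := by
  let X : ℕ → Submodule F (ℕ →₀ F) := fun i => Finsupp.supported F F (range (Nat.pair i))
  have x1 : ∀ i, ¬ FiniteDimensional F (X i) := fun i c => by
    have := infinite_range_of_injective (f := Nat.pair i) fun a b h => (Nat.pair_eq_pair.1 h).2
    have := this.to_subtype
    exact Module.not_finite_of_infinite_basis (R := F) Finsupp.basisSingleOne
      (.equiv (Finsupp.supportedEquivFinsupp (R := F) (range (Nat.pair i))))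
  have x2 : ∀ i j, i ≠ j → FiniteDimensional F (X i ⊓ X j :) := fun i j h => by
    rw [(Finsupp.disjoint_supported_supported (disjoint_left.2 ?_)).eq_bot]
    · infer_instance
    rintro _ ⟨a, rfl⟩ ⟨b, c⟩
    exact h (Nat.pair_eq_pair.1 c).1.symm
  obtain ⟨𝒜, h1, h2⟩ := zorn_subset_nonempty {𝒜 : Set (Submodule F (ℕ →₀ F)) | AD 𝒜}
    (fun c h1 h2 _ => ⟨⋃₀ c, ⟨fun X ⟨A, a, h⟩ => (h1 a).1 X h,
      (pairwise_sUnion h2.directedOn).2 fun A a => (h1 a).2⟩, fun _ => subset_sUnion_of_mem⟩)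
    (range X) ⟨forall_mem_range.2 x1, by
      rintro _ ⟨i, rfl⟩ _ ⟨j, rfl⟩ h
      exact x2 i j fun c => h (c ▸ rfl)⟩
  refine ⟨𝒜, h2, (infinite_range_of_injective (f := X) fun i j h => by_contra fun c =>
    x1 j ?_).mono h1⟩
  have := x2 i j c
  rwa [h, inf_idem] at this

end Pool.Agent.H.MP_43e680_lc
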